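import Pool.Agent.P.MP_0c5c88_lc.T.Main
import Pool.Agent.P.MP_0c5c88_lc.T.Lit

set_option autoImplicit false

open Pool.Agent.Lib.PosetForcing Pool.Agent.P.MP_0c5c88_lc

namespace Pool.Agent.Results.MP_0c5c88_lc.AboveContinuum

/-- A model of ZFC in which the ideal `I` of meager-additive sets has
`add I = ℵ₁ < non I = ℵ₂ < cov I = ℵ₃ < 𝔠 < cof I`. -/
theorem result :
    ∃ (M : Type 1) (mem : M → M → Prop), IsZFC mem ∧
      ∃ w C k1 k2 k3 I a n c f : M, IsOmega mem w ∧ IsPow mem C w ∧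
        IsNext mem w k1 ∧ IsNext mem k1 k2 ∧ IsNext mem k2 k3 ∧
        (∀ X, mem X I ↔ MAdd mem w C X) ∧
        IsLeastSize mem (AddI mem I) a ∧ IsLeastSize mem (NonI mem C I) n ∧
        IsLeastSize mem (CovI mem C I) c ∧ IsLeastSize mem (CofI mem I) f ∧
        EqCard mem a k1 ∧ EqCard mem n k2 ∧ EqCard mem c k3 ∧
        LtCard mem a n ∧ LtCard mem n c ∧ LtCard mem c f ∧ LtCard mem c C ∧ LtCard mem C f := by
  obtain ⟨U, -⟩ := exists_gen (⊤ : T.PP)
  obtain ⟨h1, h2, h3⟩ := T.sizes U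
  obtain ⟨a, n, c, f, g1, g2, g3, g4, g5⟩ := T.main U
  have h := mem_sepName (powName cN) (fun U X => MAdd Mod.mem (wN.val U) (cN.val U) X) U
  have hI := fun X => (h X).trans
    (⟨fun g => g.2, fun g => ⟨(mem_powName _ U X).2 g.1, g⟩⟩ : _ ↔ MAdd Mod.mem _ _ X)
  refine ⟨Mod U, Mod.mem, isZFC U, wN.val U, cN.val U, _, _, _, _, a, n, c, f, isOmega_omega U,
    isPow_powName _ U, h1, h2, h3, hI, ?_, ?_, ?_, ?_, g5⟩
  · simpa only [IsLeastSize, AddI, AddW, IsSub, hI] using g1
  · simpa only [IsLeastSize, NonI, NonW, hI] using g2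
  · simpa only [IsLeastSize, CovI, CovW, IsSub, hI] using g3
  · simpa only [IsLeastSize, CofI, CofW, IsSub, hI] using g4

/-! ### Side theorems: the question in its own words

A Hilbert calculus `Prov` (sound and complete: `prov_iff`), the axioms `ZFC` (`models_zfc`), and the
last theorem `literal`. -/

/-- the variable `n` is free in the formula -/
def Free (n : ℕ) : Fml → Prop
  | .mem i j => n = i ∨ n = j
  | .eq i j => n = i ∨ n = j
  | .neg φ => Free n φ
  | .and φ ψ => Free n φ ∨ Free n ψ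
  | .all i φ => ¬ n = i ∧ Free n φ

/-- the largest value of `σ` at a free variable of the formula -/
def top : Fml → (ℕ → ℕ) → ℕ
  | .mem i j, σ => if σ i ≤ σ j then σ j else σ i
  | .eq i j, σ => if σ i ≤ σ j then σ j else σ i
  | .neg φ, σ => top φ σ
  | .and φ ψ, σ => if top φ σ ≤ top ψ σ then top ψ σ else top φ σ
  | .all i φ, σ => top φ (Function.update σ i 0)

/-- simultaneous substitution of the variable `σ i` for each free variable `i`; bound variables
are renamed to fresh ones, so nothing is captured -/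
def sb : Fml → (ℕ → ℕ) → Fml
  | .mem i j, σ => .mem (σ i) (σ j)
  | .eq i j, σ => .eq (σ i) (σ j)
  | .neg φ, σ => .neg (sb φ σ)
  | .and φ ψ, σ => .and (sb φ σ) (sb ψ σ)
  | .all i φ, σ => .all (top (.all i φ) σ + 1)
      (sb φ (Function.update σ i (top (.all i φ) σ + 1)))

/-- implication -/
def imp (φ ψ : Fml) : Fml := .neg (.and φ (.neg ψ))

/-- the truth value of a formula when atomic and quantified formulas get their values from `e` -/
def Ev (e : Fml → Prop) : Fml → Prop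
  | .neg φ => ¬ Ev e φ
  | .and φ ψ => Ev e φ ∧ Ev e ψ
  | φ => e φ

/-- provability from the axioms `T` (read as universally closed) in a Hilbert calculus for
first-order logic with equality -/
inductive Prov (T : Fml → Prop) : Fml → Prop
  | ax {φ : Fml} : T φ → Prov T φ
  | taut {φ : Fml} : (∀ e, Ev e φ) → Prov T φ
  | mp {φ ψ : Fml} : Prov T (imp φ ψ) → Prov T φ → Prov T ψ
  | subst {φ : Fml} (σ : ℕ → ℕ) : Prov T φ → Prov T (sb φ σ)
  | inst (i j : ℕ) (φ : Fml) :
      Prov T (imp (.all i φ) (sb φ (Function.update (fun n => n) i j)))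
  | gen {i j : ℕ} {φ ψ : Fml} : ¬ Free j ψ → ¬ Free j (.all i φ) →
      Prov T (imp ψ (sb φ (Function.update (fun n => n) i j))) → Prov T (imp ψ (.all i φ))
  | refl (i : ℕ) : Prov T (.eq i i)
  | eqm (i j k l : ℕ) : Prov T (imp (.eq i j) (imp (.eq k l) (imp (.mem i k) (.mem j l))))
  | eqe (i j k l : ℕ) : Prov T (imp (.eq i j) (imp (.eq k l) (imp (.eq i k) (.eq j l))))

/-- `T` is consistent: it proves no formula together with its negation -/
def Con (T : Fml → Prop) : Prop := ¬ ∃ φ, Prov T φ ∧ Prov T (.neg φ)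

/-- disjunction -/
def orF (φ ψ : Fml) : Fml := .neg (.and (.neg φ) (.neg ψ))

/-- equivalence -/
def iffF (φ ψ : Fml) : Fml := .and (imp φ ψ) (imp ψ φ)

/-- existential quantifier -/
def exF (i : ℕ) (φ : Fml) : Fml := .neg (.all i (.neg φ))

/-- the axioms of ZFC (free variables are read universally) -/
inductive ZFC : Fml → Prop
  | ext : ZFC (imp (.all 2 (iffF (.mem 2 0) (.mem 2 1))) (.eq 0 1))
  | found : ZFC (imp (exF 1 (.mem 1 0))
      (exF 1 (.and (.mem 1 0) (.all 2 (imp (.mem 2 1) (.neg (.mem 2 0)))))))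
  | pair : ZFC (exF 2 (.all 3 (iffF (.mem 3 2) (orF (.eq 3 0) (.eq 3 1)))))
  | union : ZFC (exF 1 (.all 2 (iffF (.mem 2 1) (exF 3 (.and (.mem 3 0) (.mem 2 3))))))
  | power : ZFC (exF 1 (.all 2 (iffF (.mem 2 1) (.all 3 (imp (.mem 3 2) (.mem 3 0))))))
  | inf : ZFC (exF 0 (.and (exF 1 (.and (.mem 1 0) (.all 2 (.neg (.mem 2 1)))))
      (.all 1 (imp (.mem 1 0) (exF 2 (.and (.mem 2 0)
        (.all 3 (iffF (.mem 3 2) (orF (.mem 3 1) (.eq 3 1))))))))))
  | sep (φ : Fml) (a b : ℕ) : ¬ a = 0 → ¬ b = 0 → ¬ b = a → ¬ Free b φ →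
      ZFC (exF b (.all 0 (iffF (.mem 0 b) (.and (.mem 0 a) φ))))
  | repl (φ : Fml) (a b : ℕ) : 1 < a → 1 < b → ¬ b = a → ¬ Free b φ →
      ZFC (imp (.all 0 (imp (.mem 0 a) (exF b (.all 1 (iffF φ (.eq 1 b))))))
        (exF b (.all 1 (iffF (.mem 1 b) (exF 0 (.and (.mem 0 a) φ))))))
  | choice : ZFC (imp (.all 1 (imp (.mem 1 0) (exF 2 (.mem 2 1))))
      (imp (.all 1 (.all 2 (.all 3 (imp (.mem 1 0) (imp (.mem 2 0) (imp (.mem 3 1)
        (imp (.mem 3 2) (.eq 1 2))))))))
      (exF 1 (.all 2 (imp (.mem 2 0) (exF 3 (.all 4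
        (iffF (.and (.mem 4 2) (.mem 4 1)) (.eq 4 3)))))))))

/-- in models of ZFC the formula `φ` says `P` -/
def Says (φ : Fml) (P : ∀ M : Type, (M → M → Prop) → Prop) : Prop :=
  ∀ (M : Type) (mem : M → M → Prop), IsZFC mem → ∀ v, Sat mem φ v ↔ P M mem

/-- the chain `add < non < cov < cof` of the problem for the family `I` of meager-additive sets,
with `cov < 𝔠 < cof` -/
def Chain (M : Type) (mem : M → M → Prop) : Prop :=
  ∃ w C I a n c f : M, IsOmega mem w ∧ IsPow mem C w ∧ (∀ X, mem X I ↔ MAdd mem w C X) ∧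
    IsLeastSize mem (AddI mem I) a ∧ IsLeastSize mem (NonI mem C I) n ∧
    IsLeastSize mem (CovI mem C I) c ∧ IsLeastSize mem (CofI mem I) f ∧
    LtCard mem a n ∧ LtCard mem n c ∧ LtCard mem c f ∧ LtCard mem c C ∧ LtCard mem C f

theorem free_iff (n : ℕ) (φ : Fml) : Free n φ ↔ n ∈ P.MP_95b5c3_gt.Lit.fv φ := by
  induction φ <;> simp [Free, P.MP_95b5c3_gt.Lit.fv, *]

theorem top_eq (φ : Fml) : ∀ σ, top φ σ = (P.MP_95b5c3_gt.Lit.fv φ).sup σ := by
  induction φ with
  | mem i j => intro σ; simp [top, P.MP_95b5c3_gt.Lit.fv, max_def]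
  | eq i j => intro σ; simp [top, P.MP_95b5c3_gt.Lit.fv, max_def]
  | neg φ ih => exact ih
  | and φ ψ ih ih' => intro σ; simp [top, P.MP_95b5c3_gt.Lit.fv, Finset.sup_union, max_def, ih, ih']
  | all i φ ih => exact fun σ => (ih _).trans (P.MP_95b5c3_gt.Lit.sup_update _ σ i)

theorem sb_eq (φ : Fml) : ∀ σ, sb φ σ = P.MP_95b5c3_gt.Lit.sb φ σ := by
  induction φ <;> intro σ <;> simp only [sb, P.MP_95b5c3_gt.Lit.sb, top_eq, P.MP_95b5c3_gt.Lit.fv, *]

theorem ev_eq (e : Fml → Prop) (φ : Fml) : Ev e φ ↔ P.MP_95b5c3_gt.Lit.Ev e φ := by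
  induction φ <;> simp only [Ev, P.MP_95b5c3_gt.Lit.Ev, *]

theorem prov_eq (T : Fml → Prop) (φ : Fml) : Prov T φ ↔ P.MP_95b5c3_gt.Lit.Prov {χ | T χ} φ := by
  constructor <;> intro h
  · induction h with
    | ax h => exact .ax h
    | taut h => exact .taut fun e => (ev_eq e _).1 (h e)
    | mp _ _ a b => exact .mp a b
    | subst σ _ a => exact sb_eq _ σ ▸ .subst σ a
    | inst i j φ => exact sb_eq φ _ ▸ .inst i j φ
    | gen a b _ c =>
      exact .gen (mt (free_iff _ _).2 a) (mt (free_iff _ _).2 b) (sb_eq _ _ ▸ c)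
    | refl i => exact .refl i
    | eqm i j k l => exact .eqm i j k l
    | eqe i j k l => exact .eqe i j k l
  · induction h with
    | ax h => exact .ax h
    | taut h => exact .taut fun e => (ev_eq e _).2 (h e)
    | mp _ _ a b => exact .mp a b
    | subst σ _ a => exact sb_eq _ σ ▸ .subst σ a
    | inst i j φ => exact sb_eq φ _ ▸ .inst i j φ
    | gen a b _ c =>
      exact .gen (mt (free_iff _ _).1 a) (mt (free_iff _ _).1 b) ((sb_eq _ _).symm ▸ c)
    | refl i => exact .refl i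
    | eqm i j k l => exact .eqm i j k l
    | eqe i j k l => exact .eqe i j k l

theorem zfc_eq : ZFC = P.MP_95b5c3_gt.Lit.ZFC := by
  refine funext fun φ => propext ⟨fun h => ?_, fun h => ?_⟩
  · cases h with
    | sep φ a b p q r s => exact .sep φ a b p q r (mt (free_iff _ _).2 s)
    | repl φ a b p q r s => exact .repl φ a b p q r (mt (free_iff _ _).2 s)
    | _ => constructor
  · cases h with
    | sep φ a b p q r s => exact .sep φ a b p q r (mt (free_iff _ _).1 s)
    | repl φ a b p q r s => exact .repl φ a b p q r (mt (free_iff _ _).1 s)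
    | _ => constructor

/-- soundness and completeness of the calculus: provable means true in every model -/
theorem prov_iff (T : Fml → Prop) (φ : Fml) :
    Prov T φ ↔ ∀ (M : Type) (mem : M → M → Prop), (∀ χ, T χ → ∀ v, Sat mem χ v) →
      ∀ v, Sat mem φ v :=
  (prov_eq T φ).trans (P.MP_95b5c3_gt.Lit.prov_iff _ φ)

/-- the models of the axioms are the models of ZFC in the sense of `result` -/
theorem models_zfc (M : Type) (mem : M → M → Prop) (x : M) :
    (∀ χ, ZFC χ → ∀ v, Sat mem χ v) ↔ IsZFC mem :=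
  have : Nonempty M := ⟨x⟩
  zfc_eq ▸ P.MP_95b5c3_gt.Lit.models_zfc

/-- The question in its own words: the chain with `cov < 𝔠 < cof` is expressible and consistent
with ZFC. -/
theorem literal : (∃ φ, Says φ Chain) ∧ ∀ φ, Says φ Chain → Con fun χ => χ = φ ∨ ZFC χ := by
  obtain ⟨M, mem, h0, w, C, k1, k2, k3, I, a, n, c, f, h1, h2, -, -, -, h3, g1, g2, g3, g4, -, -, -,
    g5⟩ := result
  simp only [Con, prov_eq, zfc_eq]
  exact T.literalC h0 ⟨w, C, I, a, n, c, f, h1, h2, h3, g1, g2, g3, g4, g5⟩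

end Pool.Agent.Results.MP_0c5c88_lc.AboveContinuum
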